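import Pool.Agent.Work.MP_a883af_co.Final

set_option autoImplicit false

namespace Pool.Agent.Results.MP_a883af_co.BoundedTreewidth

open Pool.Agent.Work.MP_a883af_co

/-- (1) If `H` has `n` vertices and treewidth at most `k`, `k ≥ 1`, then
`r(H) ≤ k 2^(6k+4) n`.
(2) For every `A` the estimate of Q1 holds, with a constant depending on `A` only, for all `H`
whose treewidth is at most `A (d(H) + log n)`.
(3) The estimate of Q1 holds, with an absolute constant, for all chordal graphs. -/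
theorem result :
    (∀ (n k : ℕ) (H : SimpleGraph (Fin n)), 1 ≤ k → TreewidthLE H k →
      ramseyNumber H ≤ k * 2 ^ (6 * k + 4) * n) ∧
    (∀ A : ℝ, ∃ C : ℝ, ∀ (n k : ℕ) (H : SimpleGraph (Fin n)), TreewidthLE H k →
      (k : ℝ) ≤ A * ((degeneracy H : ℝ) + Real.log (n : ℝ)) →
      Real.log (ramseyNumber H : ℝ) ≤ C * ((degeneracy H : ℝ) + Real.log (n : ℝ))) ∧
    (∃ C : ℝ, ∀ (n : ℕ) (H : SimpleGraph (Fin n)), Chordal H →
      Real.log (ramseyNumber H : ℝ) ≤ C * ((degeneracy H : ℝ) + Real.log (n : ℝ))) := by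
  refine ⟨fun n k H hk hH => ramsey_le hk H hH, fun A => ⟨11 * A + 1, ?_⟩, 11, ?_⟩
  · intro n k H hH hk
    have h1 := log_le H hH
    have h2 : (0 : ℝ) ≤ (degeneracy H : ℝ) := Nat.cast_nonneg _
    have h3 : (0 : ℝ) ≤ Real.log (n : ℝ) := Real.log_natCast_nonneg n
    nlinarith [h1, h2, h3, hk]
  · intro n H hH
    have h1 := log_le H (chordal_width H hH)
    have h3 : (0 : ℝ) ≤ Real.log (n : ℝ) := Real.log_natCast_nonneg n
    linarith

end Pool.Agent.Results.MP_a883af_co.BoundedTreewidth
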