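import Pool.Agent.Work.MP_a883af_co.ZigFinal

set_option autoImplicit false

namespace Pool.Agent.Results.MP_a883af_co.MaxDegree

open Pool.Agent.Work.MP_a883af_co

/-- There is an absolute constant `C` such that every `n`-vertex graph `H` of degeneracy `d` and
maximum degree at most `Δ`, `Δ ≥ 2`, satisfies `log r(H) ≤ log n + C d log Δ`, that is
`r(H) ≤ 2 ^ (O (d log Δ)) n`. -/
theorem result :
    ∃ C : ℝ, ∀ (n Δ : ℕ) (H : SimpleGraph (Fin n)), 2 ≤ Δ →
      (∀ v, ({w : Fin n | H.Adj v w} : Set (Fin n)).ncard ≤ Δ) →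
      Real.log (ramseyNumber H : ℝ) ≤
        Real.log (n : ℝ) + C * ((degeneracy H : ℝ) * Real.log (Δ : ℝ)) :=
  ⟨60, fun _ Δ H hΔ hH => Zig.log_deg' H Δ hΔ hH⟩

end Pool.Agent.Results.MP_a883af_co.MaxDegree
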