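import Pool.Agent.Work.MP_a883af_co.ZigFinal

set_option autoImplicit false

namespace Pool.Agent.Results.MP_a883af_co.MultiLevelZigzag

open Pool.Agent.Work.MP_a883af_co

/-- (1) There is an absolute constant `C` such that every `n`-vertex graph `H` of degeneracy
`d ≥ 2` satisfies `log r(H) ≤ C (log n + d log d log (2 + log n / log d))`.
(2) There is `C` such that `log r(H) ≤ C (log n + d (log d)^2)` for all these graphs; in
particular the estimate of Q1 holds for all `H` with `d (log d)^2 ≤ log n`.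
(3) For every `A` there is `C` such that `log r(H) ≤ C d log d` for all `H` with `n ≤ d ^ A`. -/
theorem result :
    (∃ C : ℝ, ∀ (n : ℕ) (H : SimpleGraph (Fin n)), 2 ≤ degeneracy H →
      Real.log (ramseyNumber H : ℝ) ≤ C * (Real.log (n : ℝ) +
        (degeneracy H : ℝ) * Real.log (degeneracy H : ℝ) *
          Real.log (2 + Real.log (n : ℝ) / Real.log (degeneracy H : ℝ)))) ∧
    ((∃ C : ℝ, ∀ (n : ℕ) (H : SimpleGraph (Fin n)), 2 ≤ degeneracy H →
        Real.log (ramseyNumber H : ℝ) ≤ C * (Real.log (n : ℝ) +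
          (degeneracy H : ℝ) * Real.log (degeneracy H : ℝ) ^ 2)) ∧
      (∃ C : ℝ, ∀ (n : ℕ) (H : SimpleGraph (Fin n)), 2 ≤ degeneracy H →
        (degeneracy H : ℝ) * Real.log (degeneracy H : ℝ) ^ 2 ≤ Real.log (n : ℝ) →
        Real.log (ramseyNumber H : ℝ) ≤ C * ((degeneracy H : ℝ) + Real.log (n : ℝ)))) ∧
    (∀ A : ℕ, ∃ C : ℝ, ∀ (n : ℕ) (H : SimpleGraph (Fin n)), 2 ≤ degeneracy H →
      n ≤ degeneracy H ^ A →
      Real.log (ramseyNumber H : ℝ) ≤
        C * ((degeneracy H : ℝ) * Real.log (degeneracy H : ℝ))) := by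
  refine ⟨⟨1500, fun n H hd => Zig.log_main H hd⟩,
    ⟨⟨15000, fun n H hd => Zig.log_sq H hd⟩, 30000, fun n H hd hn => ?_⟩,
    fun A => ⟨1500 * (A + (A + 1)), fun n H hd hn => ?_⟩⟩
  · have h := Zig.log_sq H hd
    have h1 : (0 : ℝ) ≤ degeneracy H := Nat.cast_nonneg _
    have h2 : 0 ≤ Real.log (n : ℝ) := Real.log_natCast_nonneg n
    linarith
  · have h := Zig.log_main H hd
    have hdR : (2 : ℝ) ≤ degeneracy H := by exact_mod_cast hd
    have h1 : 0 < Real.log (degeneracy H : ℝ) := Real.log_pos (by linarith)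
    have hn0 := Zig.two_le_of_degeneracy H (by omega)
    have hnR : (n : ℝ) ≤ (degeneracy H : ℝ) ^ A := by exact_mod_cast hn
    have h2 : Real.log (n : ℝ) ≤ A * Real.log (degeneracy H : ℝ) := by
      rw [← Real.log_pow]
      apply Real.log_le_log _ hnR
      have : 0 < n := by omega
      exact_mod_cast this
    have h0 : 0 ≤ Real.log (n : ℝ) := Real.log_natCast_nonneg n
    have h3 : Real.log (n : ℝ) / Real.log (degeneracy H : ℝ) ≤ A := by
      rw [div_le_iff₀ h1]; exact h2
    have h3' : 0 ≤ Real.log (n : ℝ) / Real.log (degeneracy H : ℝ) := div_nonneg h0 h1.le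
    have h4 : Real.log (2 + Real.log (n : ℝ) / Real.log (degeneracy H : ℝ)) ≤ A + 1 := by
      have := Real.log_le_sub_one_of_pos
        (show 0 < 2 + Real.log (n : ℝ) / Real.log (degeneracy H : ℝ) by linarith)
      linarith
    have h5 : 0 ≤ (degeneracy H : ℝ) * Real.log (degeneracy H : ℝ) :=
      mul_nonneg (by linarith) h1.le
    have h6 : (degeneracy H : ℝ) * Real.log (degeneracy H : ℝ) *
          Real.log (2 + Real.log (n : ℝ) / Real.log (degeneracy H : ℝ))
        ≤ (degeneracy H : ℝ) * Real.log (degeneracy H : ℝ) * (A + 1) :=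
      mul_le_mul_of_nonneg_left h4 h5
    have h7 : (A : ℝ) * Real.log (degeneracy H : ℝ)
        ≤ A * ((degeneracy H : ℝ) * Real.log (degeneracy H : ℝ)) := by
      apply mul_le_mul_of_nonneg_left _ (Nat.cast_nonneg _)
      nlinarith
    calc Real.log (ramseyNumber H : ℝ) ≤ _ := h
      _ ≤ 1500 * (A * ((degeneracy H : ℝ) * Real.log (degeneracy H : ℝ)) +
            (degeneracy H : ℝ) * Real.log (degeneracy H : ℝ) * (A + 1)) := by linarith
      _ = _ := by ring

end Pool.Agent.Results.MP_a883af_co.MultiLevelZigzag
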